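import Mathlib

/-!
The Fejer kernel, smoothing of Dirichlet series and a Riemann-Lebesgue statement.
-/

namespace Pool.Agent.Lib.PrimeGap

open Real Set Filter Topology MeasureTheory intervalIntegral

/-- The Fejer kernel `(1 - cos (L u)) / u ^ 2`. -/
noncomputable def fejer (L u : ℝ) : ℝ := ∫ t in (0 : ℝ)..L, (L - t) * Real.cos (t * u)

lemma fejer_eq (L : ℝ) {u : ℝ} (hu : u ≠ 0) : fejer L u = (1 - Real.cos (L * u)) / u ^ 2 := by
  have hd : ∀ t, HasDerivAt (fun t => (L - t) * Real.sin (t * u) / u - Real.cos (t * u) / u ^ 2)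
      ((L - t) * Real.cos (t * u)) t := by
    intro t
    have h1 : HasDerivAt (fun t => t * u) u t := by simpa using (hasDerivAt_id t).mul_const u
    have h2 := ((((hasDerivAt_id t).const_sub L).mul h1.sin).div_const u).sub
      (h1.cos.div_const (u ^ 2))
    refine h2.congr_deriv ?_
    simp only [id]
    field_simp
    ring
  rw [fejer, intervalIntegral.integral_eq_sub_of_hasDerivAt (fun t _ => hd t)
    (Continuous.intervalIntegrable (by fun_prop) _ _)]
  simp only [sub_self, zero_mul, zero_div, Real.sin_zero, mul_zero, Real.cos_zero]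
  ring

lemma integral_lin (L : ℝ) : ∫ t in (0 : ℝ)..L, (L - t) = L ^ 2 / 2 := by
  rw [intervalIntegral.integral_sub (by simp) (by simp)]
  simp
  ring

lemma fejer_nonneg (L u : ℝ) : 0 ≤ fejer L u := by
  rcases eq_or_ne u 0 with rfl | hu
  · simp only [fejer, mul_zero, Real.cos_zero, mul_one, integral_lin]
    positivity
  · rw [fejer_eq L hu]
    have := Real.cos_le_one (L * u)
    exact div_nonneg (by linarith) (by positivity)

lemma fejer_le_sq {L : ℝ} (hL : 0 ≤ L) (u : ℝ) : fejer L u ≤ L ^ 2 / 2 := by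
  rw [← integral_lin, fejer]
  refine intervalIntegral.integral_mono_on hL (Continuous.intervalIntegrable (by fun_prop) _ _)
    (Continuous.intervalIntegrable (by fun_prop) _ _) fun t ht => ?_
  exact mul_le_of_le_one_right (by linarith [ht.2]) (Real.cos_le_one _)

lemma fejer_le_div (L : ℝ) {u : ℝ} (hu : u ≠ 0) : fejer L u ≤ 2 / u ^ 2 := by
  rw [fejer_eq L hu]
  have := Real.neg_one_le_cos (L * u)
  gcongr
  linarith

lemma fejer_ge {L u : ℝ} (hL : 0 < L) (hu : |u| ≤ 1 / L) : L ^ 2 / 4 ≤ fejer L u := by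
  have e : L ^ 2 / 4 = ∫ t in (0 : ℝ)..L, (L - t) * (1 / 2) := by
    rw [intervalIntegral.integral_mul_const, integral_lin]; ring
  rw [e, fejer]
  refine intervalIntegral.integral_mono_on hL.le (Continuous.intervalIntegrable (by fun_prop) _ _)
    (Continuous.intervalIntegrable (by fun_prop) _ _) fun t ht => ?_
  refine mul_le_mul_of_nonneg_left ?_ (by linarith [ht.2])
  have h1 : |t * u| ≤ 1 := by
    rw [abs_mul, abs_of_nonneg ht.1]
    calc t * |u| ≤ L * (1 / L) := mul_le_mul ht.2 hu (abs_nonneg _) hL.le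
      _ = 1 := by field_simp
  have h2 := Real.one_sub_sq_div_two_le_cos (x := t * u)
  have h3 : (t * u) ^ 2 ≤ 1 := by rw [← sq_abs]; exact pow_le_one₀ (abs_nonneg _) h1
  linarith

/-- Smoothing a Dirichlet series by the Fejer kernel. -/
lemma hasSum_smooth {a : ℕ → ℝ} (h0 : a 0 = 0) {σ : ℝ}
    (hs : LSeriesSummable (fun n => (a n : ℂ)) σ) {L : ℝ} (hL : 0 ≤ L) (v : ℝ) :
    HasSum (fun n : ℕ => a n / (n : ℝ) ^ σ * fejer L (v - Real.log n))
      (∫ t in (0 : ℝ)..L, ((L - t : ℝ) : ℂ) * Complex.exp (t * v * Complex.I)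
        * LSeries (fun n => (a n : ℂ)) (σ + t * Complex.I)).re := by
  set F : ℕ → ℝ → ℂ := fun n t => ((a n / (n : ℝ) ^ σ : ℝ) : ℂ)
    * (((L - t : ℝ) : ℂ) * Complex.exp (((t * (v - Real.log n) : ℝ) : ℂ) * Complex.I)) with hF
  have hterm : ∀ n t, F n t = ((L - t : ℝ) : ℂ) * Complex.exp (t * v * Complex.I)
      * LSeries.term (fun n => (a n : ℂ)) (σ + t * Complex.I) n := by
    intro n t
    rcases eq_or_ne n 0 with rfl | hn
    · simp [hF, h0]
    · have hn' : (0 : ℝ) < n := by positivity
      have hnC : (n : ℂ) ≠ 0 := by exact_mod_cast hn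
      rw [LSeries.term_of_ne_zero hn, Complex.cpow_add _ _ hnC,
        Complex.cpow_def_of_ne_zero hnC (t * Complex.I), ← Complex.natCast_log]
      simp only [hF]
      have e1 : (((n : ℝ) ^ σ : ℝ) : ℂ) = (n : ℂ) ^ (σ : ℂ) := by
        rw [Complex.ofReal_cpow hn'.le]; simp
      have e2 : Complex.exp (((t * (v - Real.log n) : ℝ) : ℂ) * Complex.I)
          = Complex.exp (t * v * Complex.I) / Complex.exp ((Real.log n : ℂ) * (t * Complex.I)) := by
        rw [← Complex.exp_sub]
        congr 1
        push_cast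
        ring
      rw [Complex.ofReal_div, e1, e2]
      ring
  have hcont : ∀ n, Continuous (F n) := fun n => by simp only [hF]; fun_prop
  have hsum : Summable fun n : ℕ => ‖LSeries.term (fun n => (a n : ℂ)) σ n‖ := hs.norm
  have h1 := hasSum_integral_of_summable_integral_norm (μ := volume.restrict (Ioc 0 L)) (F := F)
    (fun n => (hcont n).integrableOn_Ioc) (by
      refine Summable.of_nonneg_of_le (fun n => integral_nonneg fun t => norm_nonneg _)
        (fun n => ?_) (hsum.mul_left (L * L))
      rw [← intervalIntegral.integral_of_le hL]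
      have h2 := intervalIntegral.norm_integral_le_of_norm_le_const (a := 0) (b := L)
        (f := fun t => ‖F n t‖) (C := L * ‖LSeries.term (fun n => (a n : ℂ)) σ n‖) (by
          intro t ht
          rw [uIoc_of_le hL] at ht
          have e : (t : ℂ) * v * Complex.I = ((t * v : ℝ) : ℂ) * Complex.I := by push_cast; ring
          rw [norm_norm, hterm, norm_mul, norm_mul, e, Complex.norm_exp_ofReal_mul_I, mul_one,
            LSeries.norm_term_eq, LSeries.norm_term_eq, Complex.norm_real, Real.norm_eq_abs,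
            abs_of_nonneg (by linarith [ht.2])]
          simp only [Complex.add_re, Complex.ofReal_re, Complex.mul_re, Complex.I_re, mul_zero,
            Complex.ofReal_im, Complex.I_im, mul_one, sub_self, add_zero]
          gcongr
          linarith [ht.1])
      rw [sub_zero, abs_of_nonneg hL] at h2
      calc _ ≤ _ := le_abs_self _
        _ ≤ _ := h2
        _ = _ := by ring)
  have h2 := Complex.reCLM.hasSum h1
  simp only [Complex.reCLM_apply] at h2
  have e1 : (fun n => (∫ t in Ioc 0 L, F n t).re)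
      = fun n : ℕ => a n / (n : ℝ) ^ σ * fejer L (v - Real.log n) := by
    funext n
    rw [← intervalIntegral.integral_of_le hL, fejer, ← intervalIntegral.integral_const_mul]
    have h3 := (Complex.reCLM.intervalIntegral_comp_comm
      ((hcont n).intervalIntegrable (μ := volume) 0 L)).symm
    simp only [Complex.reCLM_apply] at h3
    rw [h3]
    refine intervalIntegral.integral_congr fun t _ => ?_
    simp only [hF, Complex.re_ofReal_mul, Complex.exp_ofReal_mul_I_re]
  have e2 : (∫ t in Ioc 0 L, ∑' n, F n t)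
      = ∫ t in (0 : ℝ)..L, ((L - t : ℝ) : ℂ) * Complex.exp (t * v * Complex.I)
        * LSeries (fun n => (a n : ℂ)) (σ + t * Complex.I) := by
    rw [← intervalIntegral.integral_of_le hL]
    refine intervalIntegral.integral_congr fun t _ => ?_
    simp only [hterm, tsum_mul_left, LSeries]
  rw [e1, e2] at h2
  exact h2

lemma riemann_lebesgue (f : ℝ → ℂ) {L : ℝ} (hL : 0 ≤ L) :
    Tendsto (fun v : ℝ => ∫ t in (0 : ℝ)..L, Complex.exp (t * v * Complex.I) * f t) atTop (𝓝 0) := by
  have h1 := Real.tendsto_integral_exp_smul_cocompact ((Ioc 0 L).indicator f)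
  have h2 : Tendsto (fun v : ℝ => -(v / (2 * π))) atTop (cocompact ℝ) := by
    refine Tendsto.mono_right ?_ atBot_le_cocompact
    exact tendsto_neg_atTop_atBot.comp (tendsto_id.atTop_div_const Real.two_pi_pos)
  refine (h1.comp h2).congr fun v => ?_
  simp only [Function.comp]
  rw [intervalIntegral.integral_of_le hL, ← MeasureTheory.integral_indicator measurableSet_Ioc]
  refine integral_congr_ae (Eventually.of_forall fun t => ?_)
  simp only
  by_cases ht : t ∈ Ioc 0 L
  · rw [indicator_of_mem ht, indicator_of_mem ht, Circle.smul_def, Real.fourierChar_apply,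
      smul_eq_mul]
    congr 2
    have : (π : ℂ) ≠ 0 := by exact_mod_cast Real.pi_ne_zero
    push_cast
    field_simp
  · rw [indicator_of_notMem ht, indicator_of_notMem ht, smul_zero]

lemma tendsto_smooth {H : ℂ → ℂ} (hH : ContinuousOn H {s | 1 ≤ s.re}) {L : ℝ} (hL : 0 ≤ L) :
    Tendsto (fun v : ℝ => ∫ t in (0 : ℝ)..L, ((L - t : ℝ) : ℂ) * Complex.exp (t * v * Complex.I)
      * H (((1 + 1 / v : ℝ) : ℂ) + t * Complex.I)) atTop (𝓝 0) := by
  set g : ℝ → ℝ → ℂ := fun η t => ((L - t : ℝ) : ℂ) * H (((1 + |η| : ℝ) : ℂ) + t * Complex.I)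
    with hg
  have hc : Continuous (Function.uncurry g) := by
    have h1 : Continuous fun p : ℝ × ℝ => H (((1 + |p.1| : ℝ) : ℂ) + p.2 * Complex.I) := by
      refine hH.comp_continuous (by fun_prop) fun p => ?_
      simp
    exact (show Continuous fun p : ℝ × ℝ => ((L - p.2 : ℝ) : ℂ) by fun_prop).mul h1
  have hc0 : ∀ η, Continuous (g η) := fun η => hc.uncurry_left η
  have h1 := riemann_lebesgue (g 0) hL
  have h2 : Continuous fun η => ∫ t in (0 : ℝ)..L, ‖g η t - g 0 t‖ := by
    refine intervalIntegral.continuous_parametric_intervalIntegral_of_continuous' ?_ 0 L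
    exact (hc.sub ((hc0 0).comp continuous_snd)).norm
  have h3 : Tendsto (fun v : ℝ => ∫ t in (0 : ℝ)..L, ‖g (1 / v) t - g 0 t‖) atTop (𝓝 0) := by
    have h4 := (h2.tendsto 0).comp (tendsto_id.const_div_atTop (1 : ℝ))
    simpa [Function.comp_def] using h4
  have h4 : Tendsto (fun v : ℝ => ∫ t in (0 : ℝ)..L,
      Complex.exp (t * v * Complex.I) * (g (1 / v) t - g 0 t)) atTop (𝓝 0) := by
    refine squeeze_zero_norm (fun v => ?_) h3
    refine (intervalIntegral.norm_integral_le_integral_norm hL).trans (le_of_eq ?_)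
    refine intervalIntegral.integral_congr fun t _ => ?_
    have e : (t : ℂ) * v * Complex.I = ((t * v : ℝ) : ℂ) * Complex.I := by push_cast; ring
    simp only [norm_mul, e, Complex.norm_exp_ofReal_mul_I, one_mul]
  have h5 := h4.add h1
  rw [add_zero] at h5
  refine h5.congr' ?_
  filter_upwards [eventually_gt_atTop 0] with v hv
  have c1 := hc0 (1 / v)
  have c2 := hc0 0
  rw [← intervalIntegral.integral_add (Continuous.intervalIntegrable (by fun_prop) _ _)
    (Continuous.intervalIntegrable (by fun_prop) _ _)]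
  refine intervalIntegral.integral_congr fun t _ => ?_
  simp only [hg, abs_of_pos (show 0 < 1 / v by positivity)]
  ring

end Pool.Agent.Lib.PrimeGap
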