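import Pool.Agent.Lib.PrimeGap.Kernel

/-!
Primes (in any invertible residue class) in the short intervals `(x, (1 + e) x]`.
-/

namespace Pool.Agent.Lib.PrimeGap

open Real Set Filter Topology MeasureTheory ArithmeticFunction ArithmeticFunction.vonMangoldt

/-- `ζ s - 1 / (s - 1)` with the removable singularity removed. -/
noncomputable def zetaReg : ℂ → ℂ :=
  Function.update (fun s => riemannZeta s - 1 / (s - 1)) 1 (Real.eulerMascheroniConstant : ℂ)

lemma continuous_zetaReg : Continuous zetaReg := by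
  refine continuous_iff_continuousAt.2 fun s => ?_
  rcases eq_or_ne s 1 with rfl | hs
  · exact continuousAt_update_same.2 tendsto_riemannZeta_sub_one_div
  · refine (continuousAt_update_of_ne hs).2 ?_
    exact (differentiableAt_riemannZeta hs).continuousAt.sub
      (continuousAt_const.div (by fun_prop) (sub_ne_zero.2 hs))

lemma lower_bound {L v : ℝ} (hL : 1 ≤ L) (hv : 1 ≤ v) (hvL : 2 * L ≤ Real.exp v) {B : ℝ}
    (h : HasSum (fun n : ℕ => ((ArithmeticFunction.zeta n : ℕ) : ℝ) / (n : ℝ) ^ (1 + 1 / v)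
      * fejer L (v - Real.log n)) B) : L * Real.exp (-3) / 8 ≤ B := by
  set y := Real.exp v with hy
  have hy0 : 0 < y := Real.exp_pos v
  have hL0 : 0 < L := by linarith
  have h1 := sum_le_hasSum (Finset.Ioc ⌊y⌋₊ ⌊y * (1 + 1 / L)⌋₊)
    (fun n _ => mul_nonneg (by positivity) (fejer_nonneg _ _)) h
  refine le_trans ?_ h1
  have h2 : ∀ n ∈ Finset.Ioc ⌊y⌋₊ ⌊y * (1 + 1 / L)⌋₊, Real.exp (-3) / y * (L ^ 2 / 4)
      ≤ ((ArithmeticFunction.zeta n : ℕ) : ℝ) / (n : ℝ) ^ (1 + 1 / v)
        * fejer L (v - Real.log n) := by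
    intro n hn
    rw [Finset.mem_Ioc] at hn
    have hn1 : y < n := Nat.lt_of_floor_lt hn.1
    have hn2 : (n : ℝ) ≤ y * (1 + 1 / L) := (Nat.le_floor_iff (by positivity)).1 hn.2
    have hn0 : (0 : ℝ) < n := hy0.trans hn1
    have hl1 : v < Real.log n := by rw [Real.lt_log_iff_exp_lt hn0]; exact hn1
    have hl2 : Real.log n ≤ v + 1 / L := by
      rw [Real.log_le_iff_le_exp hn0, Real.exp_add]
      refine hn2.trans (mul_le_mul_of_nonneg_left ?_ hy0.le)
      linarith [Real.add_one_le_exp (1 / L)]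
    have hL1 : 1 / L ≤ 1 := by rw [div_le_one hL0]; exact hL
    have hv1 : 1 / v ≤ 1 := by rw [div_le_one (by linarith)]; exact hv
    have hz : ((ArithmeticFunction.zeta n : ℕ) : ℝ) = 1 := by
      have : n ≠ 0 := by rintro rfl; simp at hn0
      simp [this]
    refine mul_le_mul ?_ (fejer_ge hL0 (by rw [abs_le]; constructor <;> linarith)) (by positivity)
      (by positivity)
    rw [hz, Real.rpow_def_of_pos hn0, hy, ← Real.exp_sub, one_div (Real.exp _), ← Real.exp_neg]
    refine Real.exp_le_exp.2 ?_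
    have h3 : Real.log n * (1 + 1 / v) ≤ (v + 1) * (1 + 1 / v) :=
      mul_le_mul_of_nonneg_right (by linarith) (by positivity)
    have h4 : (v + 1) * (1 + 1 / v) = v + 2 + 1 / v := by field_simp; ring
    linarith
  refine le_trans ?_ (Finset.card_nsmul_le_sum _ _ _ h2)
  rw [Nat.card_Ioc, nsmul_eq_mul]
  have h3 : ⌊y⌋₊ ≤ ⌊y * (1 + 1 / L)⌋₊ :=
    Nat.floor_le_floor (le_mul_of_one_le_right hy0.le (by linarith [show 0 < 1 / L by positivity]))
  have h4 : y / (2 * L) ≤ ((⌊y * (1 + 1 / L)⌋₊ - ⌊y⌋₊ : ℕ) : ℝ) := by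
    rw [Nat.cast_sub h3]
    have h5 := Nat.floor_le hy0.le
    have h6 := Nat.lt_floor_add_one (y * (1 + 1 / L))
    have h7 : 1 ≤ y / (2 * L) := by rw [le_div_iff₀ (by positivity)]; linarith
    have h8 : y * (1 + 1 / L) = y + 2 * (y / (2 * L)) := by field_simp
    linarith
  calc L * Real.exp (-3) / 8 = y / (2 * L) * (Real.exp (-3) / y * (L ^ 2 / 4)) := by
        field_simp; ring
    _ ≤ _ := by gcongr

lemma summable_g : Summable fun j : ℤ => 1 / (1 + (j : ℝ) ^ 2) := by
  have h1 : Summable fun j : ℤ => 1 / (j : ℝ) ^ 2 := Real.summable_one_div_int_pow.2 one_lt_two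
  refine h1.of_norm_bounded_eventually ?_
  filter_upwards [eventually_cofinite_ne 0] with j hj
  have : (j : ℝ) ≠ 0 := by exact_mod_cast hj
  rw [Real.norm_eq_abs, abs_of_pos (by positivity)]
  gcongr
  linarith

lemma dyadic : ∃ C : ℝ, 0 ≤ C ∧ ∀ (v : ℝ) (s : Finset ℕ),
    ∑ n ∈ s, vonMangoldt n / n * (1 / (1 + (⌊Real.log n - v⌋ : ℝ) ^ 2)) ≤ C := by
  have hc : 0 ≤ (Real.log 4 + 4) * Real.exp 1 := by positivity
  refine ⟨(Real.log 4 + 4) * Real.exp 1 * ∑' j : ℤ, 1 / (1 + (j : ℝ) ^ 2),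
    mul_nonneg hc (tsum_nonneg fun j => by positivity), fun v s => ?_⟩
  rw [← Finset.sum_fiberwise_of_maps_to (t := s.image fun n : ℕ => ⌊Real.log n - v⌋)
    (g := fun n : ℕ => ⌊Real.log n - v⌋) (fun n hn => Finset.mem_image_of_mem _ hn)]
  refine le_trans ?_ (mul_le_mul_of_nonneg_left (summable_g.sum_le_tsum
    (s.image fun n : ℕ => ⌊Real.log n - v⌋) fun j _ => by positivity) hc)
  rw [Finset.mul_sum]
  refine Finset.sum_le_sum fun j _ => ?_
  have h1 : ∀ n ∈ s.filter (fun n : ℕ => ⌊Real.log n - v⌋ = j),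
      vonMangoldt n / n * (1 / (1 + (⌊Real.log n - v⌋ : ℝ) ^ 2))
        ≤ vonMangoldt n * (Real.exp (-(v + j)) * (1 / (1 + (j : ℝ) ^ 2))) := by
    intro n hn
    rw [Finset.mem_filter] at hn
    rcases eq_or_ne n 0 with rfl | hn0
    · simp
    · have hn' : (0 : ℝ) < n := by positivity
      have h2 := Int.floor_le (Real.log n - v)
      rw [hn.2] at h2 ⊢
      have h3 : Real.exp (v + j) ≤ n := by rw [← Real.le_log_iff_exp_le hn']; linarith
      rw [div_eq_mul_inv, mul_assoc, Real.exp_neg]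
      have := @vonMangoldt_nonneg n
      gcongr
  refine (Finset.sum_le_sum h1).trans ?_
  rw [← Finset.sum_mul]
  have h2 : ∑ n ∈ s.filter (fun n : ℕ => ⌊Real.log n - v⌋ = j), vonMangoldt n
      ≤ Chebyshev.psi (Real.exp (v + j + 1)) := by
    rw [Chebyshev.psi_eq_sum_Icc]
    refine Finset.sum_le_sum_of_subset_of_nonneg (fun n hn => ?_) fun _ _ _ => vonMangoldt_nonneg
    rw [Finset.mem_filter] at hn
    rw [Finset.mem_Icc]
    refine ⟨Nat.zero_le _, Nat.le_floor ?_⟩
    rcases eq_or_ne n 0 with rfl | hn0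
    · simpa using (Real.exp_pos _).le
    · have hn' : (0 : ℝ) < n := by positivity
      have h2 := Int.lt_floor_add_one (Real.log n - v)
      rw [hn.2] at h2
      rw [← Real.log_le_iff_le_exp hn']
      linarith
  have h3 := h2.trans (Chebyshev.psi_le_const_mul_self (Real.exp_pos _).le)
  calc _ ≤ (Real.log 4 + 4) * Real.exp (v + j + 1)
        * (Real.exp (-(v + j)) * (1 / (1 + (j : ℝ) ^ 2))) := by gcongr
    _ = _ := by
      rw [Real.exp_add (v + j) 1, Real.exp_neg]
      field_simp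

lemma inv_sq_le {δ u : ℝ} (hδ : 0 < δ) (hu : δ ≤ |u|) :
    2 / u ^ 2 ≤ 2 * (3 / δ ^ 2 + 2) * (1 / (1 + (⌊u⌋ : ℝ) ^ 2)) := by
  have h1 : δ ^ 2 ≤ u ^ 2 := by rw [← sq_abs u]; gcongr
  have h2 : 0 < u ^ 2 := lt_of_lt_of_le (by positivity) h1
  have h3 := Int.floor_le u
  have h4 := Int.lt_floor_add_one u
  have h5 : (⌊u⌋ : ℝ) ^ 2 ≤ 2 * u ^ 2 + 2 := by
    nlinarith [sq_nonneg (2 * u - ⌊u⌋), mul_nonneg (sub_nonneg.2 h3) (sub_nonneg.2 h4.le)]
  have h6 : 3 ≤ 3 / δ ^ 2 * u ^ 2 := by
    rw [div_mul_eq_mul_div, le_div_iff₀ (by positivity)]; linarith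
  rw [mul_one_div, div_le_div_iff₀ h2 (by positivity)]
  nlinarith

variable {q : ℕ} [NeZero q] {a : ZMod q}

lemma smooth_diff (ha : IsUnit a) {L : ℝ} (hL : 0 ≤ L) {ε : ℝ} (hε : 0 < ε) :
    ∀ᶠ v : ℝ in atTop, ∃ A B : ℝ,
      HasSum (fun n : ℕ => residueClass a n / (n : ℝ) ^ (1 + 1 / v) * fejer L (v - Real.log n)) A ∧
      HasSum (fun n : ℕ => ((ArithmeticFunction.zeta n : ℕ) : ℝ) / (n : ℝ) ^ (1 + 1 / v)
        * fejer L (v - Real.log n)) B ∧ (q.totient : ℝ)⁻¹ * B ≤ A + ε := by
  have hH : ContinuousOn (fun s => LFunctionResidueClassAux a s - (q.totient : ℂ)⁻¹ * zetaReg s)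
      {s | 1 ≤ s.re} :=
    (continuousOn_LFunctionResidueClassAux a).sub
      (continuous_const.mul continuous_zetaReg).continuousOn
  have h1 := (tendsto_smooth hH hL).norm
  rw [norm_zero] at h1
  filter_upwards [h1.eventually (gt_mem_nhds hε), eventually_gt_atTop 0] with v hv hv0
  have hσ : 1 < 1 + 1 / v := by linarith [show 0 < 1 / v by positivity]
  have hre : ∀ t : ℝ, 1 < (((1 + 1 / v : ℝ) : ℂ) + t * Complex.I).re := fun t => by simpa using hv0
  have s1 : ∀ s : ℂ, 1 < s.re → LSeriesSummable (fun n => ((residueClass a n : ℝ) : ℂ)) s :=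
    fun s hs => LSeriesSummable_of_abscissaOfAbsConv_lt_re
      ((abscissaOfAbsConv_residueClass_le_one a).trans_lt (by exact_mod_cast hs))
  have e0 : (fun n => (((ArithmeticFunction.zeta n : ℕ) : ℝ) : ℂ))
      = fun n => ((ArithmeticFunction.zeta n : ℕ) : ℂ) := by
    funext n; simp only [Complex.ofReal_natCast]
  have s2 : LSeriesSummable (fun n => (((ArithmeticFunction.zeta n : ℕ) : ℝ) : ℂ))
      ((1 + 1 / v : ℝ) : ℂ) := by
    rw [e0]
    exact LSeriesSummable_zeta_iff.2 (by simpa using hv0)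
  refine ⟨_, _, hasSum_smooth (residueClass_apply_zero a) (s1 _ (by simpa using hv0)) hL v,
    hasSum_smooth (by simp) s2 hL v, ?_⟩
  have e1 : ∀ t : ℝ, LSeries (fun n => ((residueClass a n : ℝ) : ℂ))
      (((1 + 1 / v : ℝ) : ℂ) + t * Complex.I)
      = LFunctionResidueClassAux a (((1 + 1 / v : ℝ) : ℂ) + t * Complex.I)
        + (q.totient : ℂ)⁻¹ / ((((1 + 1 / v : ℝ) : ℂ) + t * Complex.I) - 1) := by
    intro t
    have := eqOn_LFunctionResidueClassAux ha (hre t)
    simp only at this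
    rw [this]
    ring
  have hne : ∀ t : ℝ, (((1 + 1 / v : ℝ) : ℂ) + t * Complex.I) ≠ 1 := by
    intro t h
    have := hre t
    rw [h] at this
    simp at this
  have e2 : ∀ t : ℝ, LSeries (fun n => (((ArithmeticFunction.zeta n : ℕ) : ℝ) : ℂ))
      (((1 + 1 / v : ℝ) : ℂ) + t * Complex.I)
      = zetaReg (((1 + 1 / v : ℝ) : ℂ) + t * Complex.I)
        + 1 / ((((1 + 1 / v : ℝ) : ℂ) + t * Complex.I) - 1) := by
    intro t
    rw [e0, LSeries_zeta_eq_riemannZeta (hre t), zetaReg, Function.update_of_ne (hne t)]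
    ring
  simp only [e1, e2]
  have c1 : Continuous fun t : ℝ =>
      LFunctionResidueClassAux a (((1 + 1 / v : ℝ) : ℂ) + t * Complex.I) :=
    (continuousOn_LFunctionResidueClassAux a).comp_continuous (by fun_prop) fun t => (hre t).le
  have c2 : Continuous fun t : ℝ => zetaReg (((1 + 1 / v : ℝ) : ℂ) + t * Complex.I) :=
    continuous_zetaReg.comp (by fun_prop)
  have c3 : ∀ c : ℂ, Continuous fun t : ℝ => c / ((((1 + 1 / v : ℝ) : ℂ) + t * Complex.I) - 1) :=
    fun c => continuous_const.div (by fun_prop) fun t => sub_ne_zero.2 (hne t)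
  have c4 : Continuous fun t : ℝ => ((L - t : ℝ) : ℂ) * Complex.exp (t * v * Complex.I) := by
    fun_prop
  have e3 := intervalIntegral.integral_sub (μ := volume) (a := 0) (b := L)
    ((c4.mul (c1.add (c3 (q.totient : ℂ)⁻¹))).intervalIntegrable _ _)
    (((c4.mul (c2.add (c3 1))).intervalIntegrable _ _).const_mul (q.totient : ℂ)⁻¹)
  rw [intervalIntegral.integral_const_mul] at e3
  simp only [Pi.mul_apply, Pi.add_apply] at e3
  have e4 : (∫ t in (0 : ℝ)..L, ((L - t : ℝ) : ℂ) * Complex.exp (t * v * Complex.I)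
      * (LFunctionResidueClassAux a (((1 + 1 / v : ℝ) : ℂ) + t * Complex.I)
        - (q.totient : ℂ)⁻¹ * zetaReg (((1 + 1 / v : ℝ) : ℂ) + t * Complex.I))) = _ :=
    Eq.trans (intervalIntegral.integral_congr fun t _ => by ring) e3
  rw [e4] at hv
  have h2 := (abs_le.1 ((Complex.abs_re_le_norm _).trans hv.le)).1
  have e5 : (q.totient : ℂ)⁻¹ = (((q.totient : ℝ)⁻¹ : ℝ) : ℂ) := by simp
  rw [Complex.sub_re] at h2
  nth_rewrite 2 [e5] at h2
  rw [Complex.re_ofReal_mul] at h2
  linarith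

/-- For every `e > 0` and every large `x` the interval `(x, (1 + e) x]` contains a prime in the
invertible residue class `a`. -/
theorem exists_prime_short_mod (ha : IsUnit a) (e : ℝ) (he : 0 < e) :
    ∃ x0 : ℝ, ∀ x : ℝ, x0 ≤ x →
      ∃ p : ℕ, p.Prime ∧ (p : ZMod q) = a ∧ x < p ∧ (p : ℝ) ≤ (1 + e) * x := by
  obtain ⟨C, hC0, hC⟩ := dyadic
  set δ := Real.log (1 + e) / 2 with hδ
  have hδ0 : 0 < δ := half_pos (Real.log_pos (by linarith))
  have hφ : (0 : ℝ) < q.totient := by exact_mod_cast Nat.totient_pos.2 (NeZero.pos q)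
  set D := 2 * (3 / δ ^ 2 + 2) with hD
  have hD0 : 0 ≤ D := by positivity
  set L := 1 + 8 * Real.exp 3 * q.totient * (D * C + 3) with hL
  have hL1 : 1 ≤ L := le_add_of_nonneg_right (by positivity)
  have hmain : D * C + 3 ≤ (q.totient : ℝ)⁻¹ * (L * Real.exp (-3) / 8) := by
    have e1 : (q.totient : ℝ)⁻¹ * (L * Real.exp (-3) / 8)
        = (q.totient : ℝ)⁻¹ * (Real.exp (-3) / 8) + (D * C + 3) := by
      rw [hL, Real.exp_neg]; field_simp
    rw [e1]
    exact le_add_of_nonneg_left (by positivity)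
  obtain ⟨s0, hs0⟩ := ((summable_residueClass_non_primes_div a).mul_left (L ^ 2 / 2)).vanishing
    (gt_mem_nhds zero_lt_one)
  have hev := (smooth_diff ha (by linarith : 0 ≤ L) zero_lt_one).and
    ((eventually_ge_atTop 1).and (Real.tendsto_exp_atTop.eventually_ge_atTop (2 * L)))
  have ht : Tendsto (fun x => Real.log x + δ) atTop atTop :=
    tendsto_atTop_add_const_right _ _ Real.tendsto_log_atTop
  obtain ⟨x0, hx0⟩ := eventually_atTop.1 ((ht.eventually hev).and
    ((eventually_gt_atTop 0).and (eventually_ge_atTop ((s0.sup id : ℕ) : ℝ))))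
  refine ⟨x0, fun x hx => ?_⟩
  obtain ⟨⟨⟨A, B, hA, hB, hAB⟩, hv1, hvL⟩, hxpos, hxs⟩ := hx0 x hx
  set v := Real.log x + δ with hv
  by_contra hcon
  push Not at hcon
  have hlow := lower_bound hL1 hv1 hvL hB
  have hup : A ≤ 1 + D * C := by
    refine hasSum_le_of_sum_le hA fun s => ?_
    have h1 : ∀ n ∈ s, residueClass a n / (n : ℝ) ^ (1 + 1 / v) * fejer L (v - Real.log n)
        ≤ (if x < n then L ^ 2 / 2 * ((if n.Prime then 0 else residueClass a n) / n) else 0)
          + D * (vonMangoldt n / n * (1 / (1 + (⌊Real.log n - v⌋ : ℝ) ^ 2))) := by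
      intro n _
      have r0 := residueClass_nonneg a n
      have r1 := residueClass_le a n
      have f0 := fejer_nonneg L (v - Real.log n)
      have t1 : 0 ≤ (if x < n then L ^ 2 / 2 * ((if n.Prime then 0 else residueClass a n) / n)
          else 0) := by split_ifs <;> positivity
      have t2 : 0 ≤ D * (vonMangoldt n / n * (1 / (1 + (⌊Real.log n - v⌋ : ℝ) ^ 2))) := by
        have := @vonMangoldt_nonneg n
        positivity
      rcases eq_or_ne n 0 with rfl | hn0
      · simp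
      have hn1 : (1 : ℝ) ≤ n := by exact_mod_cast Nat.one_le_iff_ne_zero.2 hn0
      have hn' : (0 : ℝ) < n := by linarith
      have hpow : residueClass a n / (n : ℝ) ^ (1 + 1 / v) ≤ residueClass a n / n := by
        refine div_le_div_of_nonneg_left r0 hn' ?_
        exact Real.self_le_rpow_of_one_le hn1
          (le_add_of_nonneg_right (show 0 ≤ 1 / v by positivity))
      refine (mul_le_mul_of_nonneg_right hpow f0).trans ?_
      rcases lt_or_ge |Real.log n - v| δ with h | h
      · rw [abs_lt] at h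
        have h2 : x < n := by
          rw [← Real.log_lt_log_iff hxpos hn']; linarith [h.1]
        have h3 : (n : ℝ) ≤ (1 + e) * x := by
          rw [← Real.log_le_log_iff hn' (by positivity), Real.log_mul (by positivity) hxpos.ne']
          linarith [h.2]
        refine le_add_of_le_of_nonneg ?_ t2
        rw [if_pos h2]
        by_cases hp : n.Prime
        · have h4 : residueClass a n = 0 := by
            refine indicator_of_notMem (fun h5 => ?_) _
            exact absurd h3 (not_le.2 (hcon n hp h5 h2))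
          simp [h4]
        · rw [if_neg hp, mul_comm]
          exact mul_le_mul_of_nonneg_right (fejer_le_sq (by linarith) _) (by positivity)
      · refine le_add_of_nonneg_of_le t1 ?_
        have h2 : v - Real.log n ≠ 0 := by
          intro h3
          have : Real.log n - v = 0 := by linarith
          rw [this, abs_zero] at h
          linarith
        have h3 := fejer_le_div L h2
        have h4 := inv_sq_le hδ0 h
        rw [show (v - Real.log n) ^ 2 = (Real.log n - v) ^ 2 by ring] at h3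
        have := @vonMangoldt_nonneg n
        calc residueClass a n / n * fejer L (v - Real.log n)
            ≤ vonMangoldt n / n * (D * (1 / (1 + (⌊Real.log n - v⌋ : ℝ) ^ 2))) :=
              mul_le_mul (by gcongr) (h3.trans h4) f0 (by positivity)
          _ = _ := by ring
    refine (Finset.sum_le_sum h1).trans ?_
    rw [Finset.sum_add_distrib, ← Finset.mul_sum, ← Finset.sum_filter]
    refine add_le_add (le_of_lt (hs0 _ ?_)) (mul_le_mul_of_nonneg_left (hC v s) hD0)
    rw [Finset.disjoint_left]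
    intro n hn hn'
    have h2 := (Finset.mem_filter.1 hn).2
    have h3 : n ≤ s0.sup id := Finset.le_sup (f := id) hn'
    have h4 : (n : ℝ) ≤ ((s0.sup id : ℕ) : ℝ) := by exact_mod_cast h3
    linarith
  have h2 : (q.totient : ℝ)⁻¹ * (L * Real.exp (-3) / 8) ≤ (q.totient : ℝ)⁻¹ * B := by gcongr
  linarith

/-- For every `e > 0` and every large `x` the interval `(x, (1 + e) x]` contains a prime. -/
theorem exists_prime_short (e : ℝ) (he : 0 < e) :
    ∃ x0 : ℝ, ∀ x : ℝ, x0 ≤ x → ∃ p : ℕ, p.Prime ∧ x < p ∧ (p : ℝ) ≤ (1 + e) * x := by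
  obtain ⟨x0, h⟩ := exists_prime_short_mod (q := 1) (a := 1) isUnit_one e he
  exact ⟨x0, fun x hx => (h x hx).imp fun p hp => ⟨hp.1, hp.2.2⟩⟩

end Pool.Agent.Lib.PrimeGap
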